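import Pool.Agent.K1H44.BC.Plan

/-!
# The prime factors of a squarefree binomial coefficient are spread
-/

set_option autoImplicit false

open Finset Nat

namespace Pool.Agent.K1H96.BC

open Pool.Agent.K1H44.BC

theorem t_E : S_E := by
  intro hPow hAsg k hk
  obtain ⟨K, hK⟩ : ∃ K : ℕ, K = k ! := ⟨_, rfl⟩
  have hK1 : 1 ≤ K := by rw [hK]; exact Nat.factorial_pos k
  have hKr : (1 : ℝ) ≤ K := by exact_mod_cast hK1
  refine ⟨1 / (4 * K), by positivity, 4 * K + k + 1, k * (4 * K + 2) + 2 * k, ?_⟩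
  intro n x y S hn hx hxy hS hch
  by_contra hcon
  push Not at hcon
  obtain ⟨c, hc⟩ : ∃ c : ℝ, c = 1 / (4 * K) := ⟨_, rfl⟩
  rw [← hc] at hcon
  have hc0 : 0 < c := by rw [hc]; positivity
  have hKc : K * c = 1 / 4 := by rw [hc]; field_simp
  have hx0 : (0 : ℝ) < x := by exact_mod_cast (show 0 < x by omega)
  have hr1 : 1 ≤ (y : ℝ) / x := by rw [one_le_div hx0]; exact_mod_cast hxy
  have hn2 : 2 * k ≤ n := le_trans (Nat.le_add_left _ _) hn
  have hnK : 4 * K * k + 2 * k ≤ n := by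
    refine le_trans ?_ hn
    have : k * (4 * K + 2) = 4 * K * k + 2 * k := by ring
    omega
  obtain ⟨m, A, hA, hm⟩ := hAsg k n S hk (by omega)
    (fun p hp => ⟨(hS p hp).1, by have := (hS p hp).2.1; omega⟩) hch
  have hsub : ∀ i < k, (A i).card ≤ S.card := fun i hi => card_le_card (hA i hi).1
  obtain ⟨Q, hQ⟩ : ∃ Q : ℕ → ℝ, Q = fun i => ((∏ p ∈ A i, p : ℕ) : ℝ) := ⟨_, rfl⟩
  have hQlo : ∀ i < k, (x : ℝ) ^ (A i).card ≤ Q i := by
    intro i hi
    have : x ^ (A i).card ≤ ∏ p ∈ A i, p :=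
      Finset.pow_card_le_prod _ _ _ (fun p hp => (hS p ((hA i hi).1 hp)).2.1)
    have h2 : (x : ℝ) ^ (A i).card ≤ ((∏ p ∈ A i, p : ℕ) : ℝ) := by exact_mod_cast this
    rw [hQ]
    exact h2
  have hQhi : ∀ i < k, Q i < (1 + c) * (x : ℝ) ^ (A i).card := by
    intro i hi
    have h1 : ∏ p ∈ A i, p ≤ y ^ (A i).card :=
      Finset.prod_le_pow_card _ _ _ (fun p hp => (hS p ((hA i hi).1 hp)).2.2)
    have h2' : ((∏ p ∈ A i, p : ℕ) : ℝ) ≤ (y : ℝ) ^ (A i).card := by exact_mod_cast h1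
    have h2 : Q i ≤ (y : ℝ) ^ (A i).card := by rw [hQ]; exact h2'
    have h3 : ((y : ℝ) / x) ^ (A i).card < 1 + c :=
      (pow_le_pow_right₀ hr1 (hsub i hi)).trans_lt hcon
    rw [div_pow, div_lt_iff₀ (by positivity)] at h3
    exact h2.trans_lt h3
  have hQ0 : ∀ i < k, 0 < Q i := fun i hi =>
    lt_of_lt_of_le (by positivity) (hQlo i hi)
  have hm1 : ∀ i < k, 1 ≤ m i := by
    intro i hi
    rcases Nat.eq_zero_or_pos (m i) with h | h
    · have := (hA i hi).2
      rw [h, Nat.zero_mul] at this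
      omega
    · exact h
  have hmK : ∀ i < k, m i ≤ K := by
    intro i hi
    apply Nat.le_of_dvd hK1
    rw [hK, ← hm]
    exact Finset.dvd_prod_of_mem m (mem_range.2 hi)
  have hreal : ∀ i < k, ((n : ℝ) - i) = m i * Q i := by
    intro i hi
    have h1 := (hA i hi).2
    have h2 : ((n - i : ℕ) : ℝ) = ((m i * ∏ p ∈ A i, p : ℕ) : ℝ) := by rw [h1]
    rw [Nat.cast_sub (by omega), Nat.cast_mul] at h2
    rw [h2, hQ]
  have hmr : ∀ i < k, (1 : ℝ) ≤ m i := fun i hi => by exact_mod_cast hm1 i hi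
  have hmKr : ∀ i < k, (m i : ℝ) ≤ K := fun i hi => by exact_mod_cast hmK i hi
  have hn2r : (2 : ℝ) * k ≤ n := by exact_mod_cast hn2
  have hnKr : (4 : ℝ) * K * k + 2 * k ≤ n := by exact_mod_cast hnK
  have hik : ∀ i < k, (0 : ℝ) ≤ i ∧ (i : ℝ) ≤ k := fun i hi =>
    ⟨Nat.cast_nonneg _, by exact_mod_cast hi.le⟩
  have hupp : ∀ i < k, (n : ℝ) - i ≤ K * Q i := by
    intro i hi
    rw [hreal i hi]
    exact mul_le_mul_of_nonneg_right (hmKr i hi) (hQ0 i hi).le
  have hlow : ∀ i < k, Q i ≤ n := by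
    intro i hi
    have h1 := hreal i hi
    have h2 : Q i ≤ m i * Q i := le_mul_of_one_le_left (hQ0 i hi).le (hmr i hi)
    have := (hik i hi).1
    linarith
  -- all the numbers of prime factors are equal
  have hcard : ∀ i < k, ∀ j < k, (A i).card ≤ (A j).card := by
    intro i hi j hj
    by_contra h
    push Not at h
    obtain ⟨X, hX⟩ : ∃ X : ℝ, X = (x : ℝ) ^ (A j).card := ⟨_, rfl⟩
    have hX0 : 0 < X := by rw [hX]; positivity
    have e1 : X * x ≤ Q i := by
      rw [hX, ← pow_succ]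
      exact (pow_le_pow_right₀ (by exact_mod_cast (show 1 ≤ x by omega)) h).trans (hQlo i hi)
    have e2 : Q j < (1 + c) * X := by rw [hX]; exact hQhi j hj
    have e3 := hlow i hi
    have e4 : (n : ℝ) ≤ 2 * (n - j) := by
      have := (hik j hj).2
      linarith
    have e5 := hupp j hj
    have e6 : (K : ℝ) * Q j ≤ K * ((1 + c) * X) :=
      mul_le_mul_of_nonneg_left e2.le (by linarith)
    have e7 : (K : ℝ) * ((1 + c) * X) = (K + 1 / 4) * X := by
      rw [← hKc]; ring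
    have e8 : X * x ≤ X * (2 * (K + 1 / 4)) := by
      have : X * (2 * (K + 1 / 4)) = 2 * ((K + 1 / 4) * X) := by ring
      linarith
    have e9 : (x : ℝ) ≤ 2 * (K + 1 / 4) := le_of_mul_le_mul_left e8 hX0
    have e10 : (4 : ℝ) * K + k + 1 ≤ x := by exact_mod_cast hx
    have : (0 : ℝ) ≤ k := Nat.cast_nonneg _
    linarith
  -- all the cofactors are equal
  have hmm : ∀ i < k, ∀ j < k, m i ≤ m j := by
    intro i hi j hj
    by_contra h
    push Not at h
    have ht : (A j).card = (A i).card := le_antisymm (hcard j hj i hi) (hcard i hi j hj)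
    have e1 : Q j ≤ (1 + c) * Q i := by
      have h1 := hQhi j hj
      rw [ht] at h1
      exact h1.le.trans (mul_le_mul_of_nonneg_left (hQlo i hi) (by linarith))
    have e2 : ((m j : ℝ) + 1) * Q i ≤ m i * Q i := by
      apply mul_le_mul_of_nonneg_right _ (hQ0 i hi).le
      exact_mod_cast h
    have e3 : (m j : ℝ) * Q j ≤ m j * ((1 + c) * Q i) :=
      mul_le_mul_of_nonneg_left e1 (by linarith [hmr j hj])
    have e4 := hreal i hi
    have e5 := hreal j hj
    have e6 := hik i hi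
    have e7 := hik j hj
    have e8 : (m j : ℝ) * c ≤ 1 / 4 := by
      rw [← hKc]
      exact mul_le_mul_of_nonneg_right (hmKr j hj) hc0.le
    have e9 : (m j : ℝ) * c * Q i ≤ 1 / 4 * Q i :=
      mul_le_mul_of_nonneg_right e8 (hQ0 i hi).le
    have e10 : (m j : ℝ) * ((1 + c) * Q i) = m j * Q i + m j * c * Q i := by ring
    have e11 : ((m j : ℝ) + 1) * Q i = m j * Q i + Q i := by ring
    have e12 : Q i ≤ 4 * k := by linarith
    have e13 := hupp i hi
    have e14 : (K : ℝ) * Q i ≤ K * (4 * k) := mul_le_mul_of_nonneg_left e12 (by linarith)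
    have e15 : (0 : ℝ) < k := by exact_mod_cast (show 0 < k by omega)
    linarith
  have hall : ∀ i ∈ range k, m i = m 0 := fun i hi =>
    le_antisymm (hmm i (mem_range.1 hi) 0 (by omega)) (hmm 0 (by omega) i (mem_range.1 hi))
  rw [prod_congr rfl hall, prod_const, card_range] at hm
  exact hPow k (m 0) hk hm

end Pool.Agent.K1H96.BC
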